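import Pool.Agent.R779.HK.Tup

set_option autoImplicit false
set_option linter.unusedSectionVars false
set_option linter.unusedVariables false

/-! # Products of ideals: charts at Rees divisors, and products of Hankel determinantal ideals -/

namespace Pool.Agent.Run7.h827.HM

open MvPowerSeries Pool.Agent.W574.SM Pool.Agent.Y231.RF Pool.Agent.Y228.RR Pool.Agent.TH192.DT
  Pool.Agent.H628R4.TP Pool.Agent.W574.HS Pool.Agent.W574.LM Pool.Agent.R779.HK

section General

variable {σ S T : Type} [Fintype σ] [DecidableEq σ] [Fintype S] [DecidableEq S] [Fintype T]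
  [DecidableEq T] {κ : S → Type} [∀ s, Fintype (κ s)] [∀ s, DecidableEq (κ s)]

/-- The products of `e s` members of the family `g s`, for each `s`: generators of the product of the
powers `I_s ^ e s` of the ideals `I_s = (g s j)_j`. -/
noncomputable def mixFam (g : (s : S) → κ s → MvPolynomial σ ℂ) (e : S → ℕ) :
    ((q : Σ s, Fin (e s)) → κ q.1) → MvPolynomial σ ℂ :=
  prodFam fun q : Σ s, Fin (e s) => g q.1

theorem mixFam_ne (g : (s : S) → κ s → MvPolynomial σ ℂ) (hg : ∀ s, ∃ j, g s j ≠ 0)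
    (e : S → ℕ) : ∃ j, mixFam g e j ≠ 0 := by
  choose j hj using hg
  refine ⟨fun q => j q.1, ?_⟩
  rw [mixFam, prodFam]
  exact Finset.prod_ne_zero_iff.2 fun q _ => hj q.1

theorem aeval_mixFam (g : (s : S) → κ s → MvPolynomial σ ℂ) (e : S → ℕ)
    (ξ : σ → MvPowerSeries σ ℂ) (j : (q : Σ s, Fin (e s)) → κ q.1) :
    MvPolynomial.aeval ξ (mixFam g e j)
      = ∏ q : Σ s, Fin (e s), MvPolynomial.aeval ξ (g q.1 (j q)) := by
  rw [mixFam, prodFam, map_prod]

/-- the chart for the products -/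
noncomputable def mixChart {g : (s : S) → κ s → MvPolynomial σ ℂ} (E : Chart g)
    (e : T → S → ℕ) : Chart (fun t => mixFam g (e t)) where
  z := E.z
  ξ := E.ξ
  k := E.k
  m := fun t => ∑ s, e t s * E.m s
  j0 := fun t q => E.j0 q.1
  jacobian := E.jacobian
  divides := fun t j => by
    rw [aeval_mixFam, ← prod_q (e t) (X E.z : MvPowerSeries σ ℂ) E.m]
    exact Finset.prod_dvd_prod_of_dvd _ _ fun q _ => E.divides q.1 (j q)
  attained := fun t => by
    choose U1 hU1 hj0 using E.attained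
    refine ⟨∏ q : Σ s, Fin (e t s), U1 q.1, ?_, ?_⟩
    · rw [map_prod]
      exact Finset.prod_ne_zero_iff.2 fun q _ => hU1 q.1
    · rw [aeval_mixFam, ← prod_q (e t) (X E.z : MvPowerSeries σ ℂ) E.m,
        ← Finset.prod_mul_distrib]
      exact Finset.prod_congr rfl fun q _ => hj0 q.1

/-- the quotients -/
theorem mix_quot (g : (s : S) → κ s → MvPolynomial σ ℂ) (ξ : σ → MvPowerSeries σ ℂ)
    (j0 : (s : S) → κ s) (e : S → ℕ) (s : S) (hs : e s ≠ 0) (c : κ s → ℂ)
    (w : MvPowerSeries σ ℂ) (hc : ∑ j, c j • MvPolynomial.aeval ξ (g s j)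
      = MvPolynomial.aeval ξ (g s (j0 s)) * w) :
    ∃ v : ((q : Σ s, Fin (e s)) → κ q.1) → ℂ, ∑ j, v j • MvPolynomial.aeval ξ (mixFam g e j)
      = MvPolynomial.aeval ξ (mixFam g e fun q => j0 q.1) * w := by
  classical
  have hpos : 0 < e s := Nat.pos_of_ne_zero hs
  let q0 : Σ s, Fin (e s) := ⟨s, ⟨0, hpos⟩⟩
  refine ⟨fun j => if ∀ q, q ≠ q0 → j q = j0 q.1 then c (j q0) else 0, ?_⟩
  have h1 : ∀ j : (q : Σ s, Fin (e s)) → κ q.1,
      (if ∀ q, q ≠ q0 → j q = j0 q.1 then c (j q0) else 0) •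
        MvPolynomial.aeval ξ (mixFam g e j)
      = ∑ i : κ s, if j = Function.update (fun q : Σ s, Fin (e s) => j0 q.1) q0 i then
          c i • (MvPolynomial.aeval ξ (g s i) *
            ∏ q ∈ Finset.univ.erase q0, MvPolynomial.aeval ξ (g q.1 (j0 q.1))) else 0 := by
    intro j
    by_cases hj : ∀ q, q ≠ q0 → j q = j0 q.1
    · rw [if_pos hj]
      have h2 : j = Function.update (fun q : Σ s, Fin (e s) => j0 q.1) q0 (j q0) := by
        funext q
        by_cases hq : q = q0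
        · subst hq; rw [Function.update_self]
        · rw [Function.update_of_ne hq]; exact hj q hq
      rw [Finset.sum_eq_single (j q0)]
      · rw [if_pos h2, aeval_mixFam, ← Finset.mul_prod_erase _ _ (Finset.mem_univ q0)]
        congr 2
        refine Finset.prod_congr rfl fun q hq => ?_
        rw [hj q (Finset.ne_of_mem_erase hq)]
      · intro i _ hi
        rw [if_neg]
        intro h3
        apply hi
        rw [h3, Function.update_self]
      · intro h; exact absurd (Finset.mem_univ _) h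
    · rw [if_neg hj, zero_smul]
      symm
      refine Finset.sum_eq_zero fun i _ => ?_
      rw [if_neg]
      intro h3
      apply hj
      intro q hq
      rw [h3, Function.update_of_ne hq]
  rw [Finset.sum_congr rfl fun j _ => h1 j, Finset.sum_comm]
  have h2 : ∀ i : κ s, (∑ j : (q : Σ s, Fin (e s)) → κ q.1,
      if j = Function.update (fun q : Σ s, Fin (e s) => j0 q.1) q0 i then
          c i • (MvPolynomial.aeval ξ (g s i) *
            ∏ q ∈ Finset.univ.erase q0, MvPolynomial.aeval ξ (g q.1 (j0 q.1))) else 0)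
      = c i • MvPolynomial.aeval ξ (g s i) *
          ∏ q ∈ Finset.univ.erase q0, MvPolynomial.aeval ξ (g q.1 (j0 q.1)) := by
    intro i
    rw [Finset.sum_ite_eq' Finset.univ, if_pos (Finset.mem_univ _), smul_mul_assoc]
  rw [Finset.sum_congr rfl fun i _ => h2 i, ← Finset.sum_mul, hc, aeval_mixFam,
    ← Finset.mul_prod_erase _ _ (Finset.mem_univ q0)]
  ring

/-- A Rees divisor of the ideals `I_s` is a Rees divisor of their products. -/
theorem mixChart_isRees {g : (s : S) → κ s → MvPolynomial σ ℂ} (E : Chart g)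
    (e : T → S → ℕ) (A : T → Prop) (hE : E.IsRees fun s => ∃ t, A t ∧ e t s ≠ 0) :
    (mixChart E e).IsRees A := by
  obtain ⟨w, hwz, hw0, hwdet, htype⟩ := hE
  refine ⟨w, hwz, hw0, hwdet, fun t ht => ?_⟩
  rcases htype t ht with h | ⟨s, ⟨t', hA, hs⟩, c, hc⟩
  · exact Or.inl h
  · exact Or.inr ⟨t', hA, mix_quot g E.ξ E.j0 (e t') s hs c _ hc⟩

theorem mixChart_mul {g : (s : S) → κ s → MvPolynomial σ ℂ} (E : Chart g)
    (e : T → S → ℕ) (a : T → ℕ) :
    (mixChart E e).mul a = ∑ t, a t * ∑ s, e t s * E.m s := rfl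

end General

section Hankel

variable {S T : Type} [Fintype S] [DecidableEq S] [Fintype T] [DecidableEq T]

/-- The generators of the product of the powers `I_{p s} ^ e s`, `s ∈ S`, of ideals of minors of
Hankel matrices in `N` variables: products of `e s` maximal minors of the `p s × (N + 1 - p s)` Hankel
matrix, for each `s`. -/
noncomputable def hankelProd (N : ℕ) (p e : S → ℕ) :
    ((q : Σ s, Fin (e s)) → HIdx N (p q.1)) → MvPolynomial (Fin N) ℂ :=
  mixFam (fun s => hankel N (p s)) e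

theorem hankelProd_ne (N : ℕ) (p e : S → ℕ) (hp : ∀ s, 2 * p s < N) :
    ∃ j, hankelProd N p e j ≠ 0 :=
  mixFam_ne _ (fun s => hankel_ne N (p s) (hp s)) e

/-- The multiplicities of `∏ t, F_t ^ a t`, `F_t` the general form over the ideal
`∏ s, I_{p s} ^ e t s`: `∑ t, a t * ∑ s, e t s * (p s - d)` along `E_d`, and `a t` along the strict
transform of `F_t = 0`. -/
def mulM (N : ℕ) (p : S → ℕ) (e : T → S → ℕ) (a : T → ℕ) : Fin ((N + 1) / 2) ⊕ T → ℕ :=
  Sum.elim (fun d => ∑ t, a t * ∑ s, e t s * (p s - d)) a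

/-- charts for the products -/
theorem mix_chart_exists (N d : ℕ) (p : S → ℕ) (e : T → S → ℕ) (a : T → ℕ)
    (hp : ∀ s, 2 * p s < N) (hpos : 0 < ∑ t, a t * ∑ s, e t s * (p s - d))
    (H : MvPolynomial (Fin N) ℂ) (hH : MvPolynomial.constantCoeff H ≠ 0) :
    ∃ E : Chart (fun t => hankelProd N p (e t)), E.k = N - 2 * d - 1 ∧
      E.m = (fun t => ∑ s, e t s * (p s - d)) ∧ (E.IsRees fun t => a t ≠ 0) ∧
      constantCoeff (MvPolynomial.aeval E.ξ H) ≠ 0 ∧ 2 * d < N ∧
      ∃ (P : MvPolynomial (Fin N) ℂ) (U : MvPowerSeries (Fin N) ℂ), constantCoeff U ≠ 0 ∧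
        MvPolynomial.aeval E.ξ P = X E.z * U := by
  obtain ⟨t0, -, ht0⟩ := Finset.exists_ne_zero_of_sum_ne_zero hpos.ne'
  have ha : a t0 ≠ 0 := left_ne_zero_of_mul ht0
  obtain ⟨s0, -, hs0⟩ := Finset.exists_ne_zero_of_sum_ne_zero (right_ne_zero_of_mul ht0)
  have he : e t0 s0 ≠ 0 := left_ne_zero_of_mul hs0
  have hd : p s0 - d ≠ 0 := right_ne_zero_of_mul hs0
  have hN := hp s0
  set a' : S → ℕ := fun s => ∑ t, a t * e t s with ha'
  have hiff : ∀ s, a' s ≠ 0 → ∃ t, a t ≠ 0 ∧ e t s ≠ 0 := by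
    intro s hs
    obtain ⟨t, -, ht⟩ := Finset.exists_ne_zero_of_sum_ne_zero hs
    exact ⟨t, left_ne_zero_of_mul ht, right_ne_zero_of_mul ht⟩
  have ha0 : a' s0 ≠ 0 := by
    intro h
    exact (Nat.mul_ne_zero ha he) (Finset.sum_eq_zero_iff.1 h t0 (Finset.mem_univ _))
  obtain ⟨lam, hl, hlH⟩ := exists_lam N d H hH
  obtain ⟨E, hk, hm, hR, hcc, P, U, hU, hP⟩ := chart_exists N d p a' hp s0 ha0 (by omega) lam hl
  have hR' : E.IsRees fun s => ∃ t, a t ≠ 0 ∧ e t s ≠ 0 := by
    obtain ⟨w, hwz, hw0, hwdet, htype⟩ := hR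
    refine ⟨w, hwz, hw0, hwdet, fun t ht => ?_⟩
    rcases htype t ht with h | ⟨s, hs, c, hc⟩
    · exact Or.inl h
    · exact Or.inr ⟨s, hiff s hs, c, hc⟩
  refine ⟨mixChart E e, hk, ?_, mixChart_isRees E e _ hR', ?_, by omega, P, U, hU, hP⟩
  · change (fun t => ∑ s, e t s * E.m s) = _
    rw [hm]
  · change constantCoeff (MvPolynomial.aeval E.ξ H) ≠ 0
    rw [Pool.Agent.TH192.DT.cc_aeval]
    simp only [hcc]
    exact hlH

/-- **The numbers of the secant varieties come from Rees divisors of the products.** -/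
theorem mix_fromRees (N d : ℕ) (p : S → ℕ) (e : T → S → ℕ) (a : T → ℕ) (hp : ∀ s, 2 * p s < N)
    (hpos : 0 < ∑ t, a t * ∑ s, e t s * (p s - d)) (H : MvPolynomial (Fin N) ℂ)
    (hH : MvPolynomial.constantCoeff H ≠ 0) :
    FromRees (fun t => hankelProd N p (e t)) a H (N - 2 * d - 1 + 1)
      (∑ t, a t * ∑ s, e t s * (p s - d)) := by
  obtain ⟨E, hk, hm, hR, hc, -, -⟩ := mix_chart_exists N d p e a hp hpos H hH
  have h2 := fromRees_self E hR hc (by rw [Chart.mul, hm]; exact hpos)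
  rw [Chart.mul, hk, hm] at h2
  exact h2

/-- the roots of the functional equations of the products of the ideals -/
theorem mix_ideal_roots (N d : ℕ) (p : S → ℕ) (e : T → S → ℕ) (a : T → ℕ)
    (hp : ∀ s, 2 * p s < N) (b : Polynomial ℂ) (H : MvPolynomial (Fin N) ℂ)
    (hH : MvPolynomial.constantCoeff H ≠ 0)
    (hb : Pool.Agent.W574.LM.IsLocEq H
      (prodFam fun q : Σ t, Fin (a t) => hankelProd N p (e q.1)) b)
    (l : ℕ) (hl : l < ∑ t, a t * ∑ s, e t s * (p s - d)) :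
    b.eval (-(((N - 2 * d : ℕ) : ℂ) + l) / (∑ t, a t * ∑ s, e t s * (p s - d) : ℕ)) = 0 := by
  obtain ⟨E, hk, hm, hR, hc, hdN, P, U, hU, hP⟩ := mix_chart_exists N d p e a hp
    (Nat.pos_of_ne_zero (Nat.ne_zero_of_lt hl)) H hH
  have h2 := rees_prod a (fun t => hankelProd N p (e t)) b H hb E hR hc l
    (by rw [Chart.mul, hm]; exact hl) (P ^ l) ⟨U ^ l, by
      rw [map_pow]; exact pow_ne_zero _ hU, by rw [map_pow, hP, mul_pow]⟩
  rw [Chart.mul, hk, hm] at h2
  have h3 : ((N - 2 * d - 1 : ℕ) : ℂ) + 1 = ((N - 2 * d : ℕ) : ℂ) := by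
    rw [← Nat.cast_succ]
    congr 1
    omega
  rw [h3] at h2
  exact h2

/-- the roots of the Bernstein-Sato polynomials of the products of powers of forms -/
theorem mix_pow_roots (N : ℕ) (p : S → ℕ) (e : T → S → ℕ) (a : T → ℕ) (hp : ∀ s, 2 * p s < N)
    (b : Polynomial ℂ) (hb : PowData a (fun t => hankelProd N p (e t)) b)
    (x : Fin ((N + 1) / 2) ⊕ T) (l : ℕ) (hl : l < mulM N p e a x) :
    b.eval (-((nuH N T x : ℂ) + l) / mulM N p e a x) = 0 := by
  rcases x with d | t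
  · change l < ∑ t, a t * ∑ s, e t s * (p s - d) at hl
    obtain ⟨t0, -, ht0⟩ := Finset.exists_ne_zero_of_sum_ne_zero (Nat.pos_of_ne_zero
      (Nat.ne_zero_of_lt hl)).ne'
    obtain ⟨H, hH, hHb⟩ := hb.ideal ⟨t0, left_ne_zero_of_mul ht0⟩
    exact mix_ideal_roots N d p e a hp b H hH hHb l hl
  · have h3 := hb.strict t l hl
    change b.eval (-(((1 : ℕ) : ℂ) + l) / a t) = 0
    rw [Nat.cast_one]
    exact h3

theorem mix_global_roots (N : ℕ) (p : S → ℕ) (e : T → S → ℕ) (a : T → ℕ)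
    (hp : ∀ s, 2 * p s < N) (b : Polynomial ℂ)
    (hb : IsBFunction (powProd a fun t => hankelProd N p (e t)) b)
    (x : Fin ((N + 1) / 2) ⊕ T) (l : ℕ) (hl : l < mulM N p e a x) :
    b.eval (-((nuH N T x : ℂ) + l) / mulM N p e a x) = 0 :=
  mix_pow_roots N p e a hp b
    (powData_global a _ (fun t => hankelProd_ne N p (e t) hp) b hb) x l hl

theorem mix_local_roots (N : ℕ) (p : S → ℕ) (e : T → S → ℕ) (a : T → ℕ)
    (hp : ∀ s, 2 * p s < N) (b : Polynomial ℂ)
    (hb : IsLocalBFunction (powProd a fun t => hankelProd N p (e t)) b)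
    (x : Fin ((N + 1) / 2) ⊕ T) (l : ℕ) (hl : l < mulM N p e a x) :
    b.eval (-((nuH N T x : ℂ) + l) / mulM N p e a x) = 0 :=
  mix_pow_roots N p e a hp b
    (powData_local a _ (fun t => hankelProd_ne N p (e t) hp) b hb) x l hl

/-- The vectors of multiplicities of the tuple `(F_t)`: `∑ s, e t s * (p s - d)` along `E_d`, and the
unit vectors along the strict transforms. -/
def vecM (N : ℕ) (p : S → ℕ) (e : T → S → ℕ) : Fin ((N + 1) / 2) ⊕ T → T → ℕ :=
  mulT fun (d : Fin ((N + 1) / 2)) t => ∑ s, e t s * (p s - d)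

theorem mulM_vec (N : ℕ) (p : S → ℕ) (e : T → S → ℕ) (n : T → ℕ)
    (x : Fin ((N + 1) / 2) ⊕ T) : mulM N p e n x = ∑ t, n t * vecM N p e x t := by
  rcases x with i | t
  · rfl
  · change n t = ∑ t', n t' * (Pi.single t 1 : T → ℕ) t'
    rw [Finset.sum_eq_single t]
    · rw [Pi.single_eq_same, mul_one]
    · intro t' _ ht'
      rw [Pi.single_eq_of_ne ht', mul_zero]
    · intro h; exact absurd (Finset.mem_univ _) h

theorem mix_tuple (N : ℕ) (p : S → ℕ) (e : T → S → ℕ) (hp : ∀ s, 2 * p s < N)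
    (χ : Finset (Fin ((N + 1) / 2) ⊕ T) → ℤ) (z : T → ℂ)
    (hz : z ∈ PolarLocus (topM (nuH N T) (vecM N p e) χ)) :
    ∃ x, ∑ t, (vecM N p e x t : ℂ) * z t + (nuH N T x : ℂ) = 0 ∧
      ∀ n : T → ℕ, (∀ t, 0 < n t) → 0 < ∑ t, n t * vecM N p e x t ∧
        ∀ b : Polynomial ℂ, IsBFunction (powProd n fun t => hankelProd N p (e t)) b →
          ∀ l : ℕ, l < ∑ t, n t * vecM N p e x t →
            b.eval (-((nuH N T x : ℂ) + l) / (∑ t, n t * vecM N p e x t : ℕ)) = 0 := by
  obtain ⟨x, hx⟩ := polar_topM _ (nuH_pos N T) _ χ z hz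
  refine ⟨x, hx, fun n hn => ⟨?_, fun b hb l hl => ?_⟩⟩
  · rcases Nat.eq_zero_or_pos (∑ t, n t * vecM N p e x t) with h0 | h0
    · exfalso
      have h1 : ∀ t, vecM N p e x t = 0 := fun t =>
        (Nat.mul_eq_zero.1 ((Finset.sum_eq_zero_iff.1 h0) t (Finset.mem_univ t))).resolve_left
          (hn t).ne'
      have h2 : ∑ t, (vecM N p e x t : ℂ) * z t = 0 :=
        Finset.sum_eq_zero fun t _ => by rw [h1 t, Nat.cast_zero, zero_mul]
      rw [h2, zero_add] at hx
      exact (nuH_pos N T x).ne' (Nat.cast_eq_zero.1 hx)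
    · exact h0
  · rw [← mulM_vec] at hl ⊢
    exact mix_global_roots N p e n hp b hb x l hl

end Hankel

end Pool.Agent.Run7.h827.HM
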