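import Pool.Agent.Run7.h827.HM.Mixed
import Pool.Agent.R852.BM.Ports
import Pool.Agent.R852.BM.Defs

set_option autoImplicit false
set_option linter.unusedSectionVars false
set_option linter.unusedVariables false

/-! # Forms over products of powers of ideals with charts at their Rees divisors -/

namespace Pool.Agent.Run7.h827.HM

open MvPowerSeries Pool.Agent.W574.SM Pool.Agent.Y231.RF Pool.Agent.Y228.RR Pool.Agent.TH192.DT
  Pool.Agent.H628R4.TP Pool.Agent.W574.HS Pool.Agent.W574.LM Pool.Agent.R779.HK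
  Pool.Agent.R852.BM

section Gen

variable {σ S T I : Type} [Fintype σ] [DecidableEq σ] [Fintype S] [DecidableEq S] [Fintype T]
  [DecidableEq T] [Fintype I] [DecidableEq I] {κ : S → Type} [∀ s, Fintype (κ s)]
  [∀ s, DecidableEq (κ s)]

/-- The ideal with the index `s` occurs in `f = ∏ t, F_t ^ a t`, `F_t` the form over the product of the
ideals with the exponents `e t s`. -/
def Occ (e : T → S → ℕ) (a : T → ℕ) (s : S) : Prop := ∃ t, a t ≠ 0 ∧ e t s ≠ 0

/-- There is a chart at a general point of a divisor with the numbers `k` and `m`, which is a Rees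
divisor of the product of the ideals with the indices in `A`. -/
def HasChart (g : (s : S) → κ s → MvPolynomial σ ℂ) (k : ℕ) (m : S → ℕ) (A : S → Prop) : Prop :=
  ∀ H : MvPolynomial σ ℂ, MvPolynomial.constantCoeff H ≠ 0 →
    ∃ E : Chart g, E.k = k ∧ E.m = m ∧ E.IsRees A ∧
      constantCoeff (MvPolynomial.aeval E.ξ H) ≠ 0 ∧
      ∃ (P : MvPolynomial σ ℂ) (U : MvPowerSeries σ ℂ), constantCoeff U ≠ 0 ∧
        MvPolynomial.aeval E.ξ P = X E.z * U

theorem isRees_mono {g : (s : S) → κ s → MvPolynomial σ ℂ} {E : Chart g} {A B : S → Prop}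
    (h : ∀ s, A s → B s) (hE : E.IsRees A) : E.IsRees B := by
  obtain ⟨w, hwz, hw0, hwdet, htype⟩ := hE
  refine ⟨w, hwz, hw0, hwdet, fun t ht => ?_⟩
  rcases htype t ht with h' | ⟨s, hs, c, hc⟩
  · exact Or.inl h'
  · exact Or.inr ⟨s, h s hs, c, hc⟩

theorem hasChart_mono {g : (s : S) → κ s → MvPolynomial σ ℂ} {k : ℕ} {m : S → ℕ}
    {A B : S → Prop} (h : ∀ s, A s → B s) (hE : HasChart g k m A) : HasChart g k m B := by
  intro H hH
  obtain ⟨E, h1, h2, h3, h4⟩ := hE H hH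
  exact ⟨E, h1, h2, isRees_mono h h3, h4⟩

/-- the roots of the functional equations of the products of the ideals -/
theorem gen_ideal_roots (g : (s : S) → κ s → MvPolynomial σ ℂ) (k : ℕ) (m : S → ℕ)
    (e : T → S → ℕ) (a : T → ℕ) (hE : HasChart g k m (Occ e a)) (b : Polynomial ℂ)
    (H : MvPolynomial σ ℂ) (hH : MvPolynomial.constantCoeff H ≠ 0)
    (hb : Pool.Agent.W574.LM.IsLocEq H
      (prodFam fun q : Σ t, Fin (a t) => mixFam g (e q.1)) b)
    (l : ℕ) (hl : l < ∑ t, a t * ∑ s, e t s * m s) :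
    b.eval (-(((k + 1 : ℕ) : ℂ) + l) / (∑ t, a t * ∑ s, e t s * m s : ℕ)) = 0 := by
  obtain ⟨E, hk, hm, hR, hc, P, U, hU, hP⟩ := hE H hH
  have hR' : (mixChart E e).IsRees fun t => a t ≠ 0 := mixChart_isRees E e _ hR
  have h2 := rees_prod a (fun t => mixFam g (e t)) b H hb (mixChart E e) hR' hc l
    (by rw [mixChart_mul, hm]; exact hl) (P ^ l) ⟨U ^ l, by
      rw [map_pow]; exact pow_ne_zero _ hU, by
      change MvPolynomial.aeval E.ξ (P ^ l) = X E.z ^ l * U ^ l
      rw [map_pow, hP, mul_pow]⟩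
  rw [mixChart_mul, hm] at h2
  have h3 : ((mixChart E e).k : ℂ) + 1 = ((k + 1 : ℕ) : ℂ) := by
    change (E.k : ℂ) + 1 = _
    rw [hk, Nat.cast_succ]
  rw [h3] at h2
  exact h2

/-- the roots for one product of powers of the ideals -/
theorem gen_one_roots (g : (s : S) → κ s → MvPolynomial σ ℂ) (k : ℕ) (m : S → ℕ)
    (e : S → ℕ) (hE : HasChart g k m (fun s => e s ≠ 0)) (b : Polynomial ℂ)
    (H : MvPolynomial σ ℂ) (hH : MvPolynomial.constantCoeff H ≠ 0)
    (hb : Pool.Agent.W574.LM.IsLocEq H (mixFam g e) b)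
    (l : ℕ) (hl : l < ∑ s, e s * m s) :
    b.eval (-(((k + 1 : ℕ) : ℂ) + l) / (∑ s, e s * m s : ℕ)) = 0 := by
  obtain ⟨E, hk, hm, hR, hc, P, U, hU, hP⟩ := hE H hH
  have h2 := rees_prod e g b H hb E hR hc l
    (by rw [Chart.mul, hm]; exact hl) (P ^ l) ⟨U ^ l, by
      rw [map_pow]; exact pow_ne_zero _ hU, by rw [map_pow, hP, mul_pow]⟩
  rw [Chart.mul, hm] at h2
  have h3 : (E.k : ℂ) + 1 = ((k + 1 : ℕ) : ℂ) := by
    rw [hk, Nat.cast_succ]
  rw [h3] at h2
  exact h2

/-- the numbers `ν` of the components -/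
def nuG (k : I → ℕ) (T : Type) : I ⊕ T → ℕ := Sum.elim (fun i => k i + 1) fun _ => 1

/-- the multiplicities of the components -/
def mulG (m : I → S → ℕ) (e : T → S → ℕ) (a : T → ℕ) : I ⊕ T → ℕ :=
  Sum.elim (fun i => ∑ t, a t * ∑ s, e t s * m i s) a

theorem nuG_pos (k : I → ℕ) (x : I ⊕ T) : 0 < nuG k T x := by
  rcases x with i | t
  · exact Nat.succ_pos _
  · exact Nat.one_pos

theorem gen_pow_roots (g : (s : S) → κ s → MvPolynomial σ ℂ) (k : I → ℕ) (m : I → S → ℕ)
    (e : T → S → ℕ) (a : T → ℕ)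
    (hE : ∀ i, 0 < mulG m e a (Sum.inl i) → HasChart g (k i) (m i) (Occ e a))
    (b : Polynomial ℂ) (hb : PowData a (fun t => mixFam g (e t)) b)
    (x : I ⊕ T) (l : ℕ) (hl : l < mulG m e a x) :
    b.eval (-((nuG k T x : ℂ) + l) / mulG m e a x) = 0 := by
  rcases x with i | t
  · have hpos : 0 < mulG m e a (Sum.inl i) := lt_of_le_of_lt (Nat.zero_le _) hl
    change l < ∑ t, a t * ∑ s, e t s * m i s at hl
    obtain ⟨t0, -, ht0⟩ := Finset.exists_ne_zero_of_sum_ne_zero (Nat.pos_of_ne_zero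
      (Nat.ne_zero_of_lt hl)).ne'
    obtain ⟨H, hH, hHb⟩ := hb.ideal ⟨t0, left_ne_zero_of_mul ht0⟩
    exact gen_ideal_roots g (k i) (m i) e a (hE i hpos) b H hH hHb l hl
  · have h3 := hb.strict t l hl
    change b.eval (-(((1 : ℕ) : ℂ) + l) / a t) = 0
    rw [Nat.cast_one]
    exact h3

theorem gen_data (g : (s : S) → κ s → MvPolynomial σ ℂ) (hg : ∀ s, ∃ j, g s j ≠ 0)
    (e : T → S → ℕ) (a : T → ℕ) (b : Polynomial ℂ)
    (hb : IsBFunction (powProd a fun t => mixFam g (e t)) b ∨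
      IsLocalBFunction (powProd a fun t => mixFam g (e t)) b) :
    PowData a (fun t => mixFam g (e t)) b := by
  rcases hb with hb | hb
  · exact powData_global a _ (fun t => mixFam_ne g hg (e t)) b hb
  · exact powData_local a _ (fun t => mixFam_ne g hg (e t)) b hb

/-- **The roots.** -/
theorem gen_roots (g : (s : S) → κ s → MvPolynomial σ ℂ) (hg : ∀ s, ∃ j, g s j ≠ 0) (k : I → ℕ)
    (m : I → S → ℕ) (e : T → S → ℕ) (a : T → ℕ)
    (hE : ∀ i, 0 < mulG m e a (Sum.inl i) → HasChart g (k i) (m i) (Occ e a))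
    (b : Polynomial ℂ) (hb : IsBFunction (powProd a fun t => mixFam g (e t)) b ∨
      IsLocalBFunction (powProd a fun t => mixFam g (e t)) b)
    (x : I ⊕ T) (l : ℕ) (hl : l < mulG m e a x) :
    b.eval (-((nuG k T x : ℂ) + l) / mulG m e a x) = 0 :=
  gen_pow_roots g k m e a hE b (gen_data g hg e a b hb) x l hl

/-- the set of the pairs -/
theorem gen_set (g : (s : S) → κ s → MvPolynomial σ ℂ) (hg : ∀ s, ∃ j, g s j ≠ 0) (k : I → ℕ)
    (m : I → S → ℕ) (e : T → S → ℕ) (a : T → ℕ)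
    (hE : ∀ i, 0 < mulG m e a (Sum.inl i) → HasChart g (k i) (m i) (Occ e a)) :
    ∃ 𝒮 : Finset (ℤ × ℤ), (∀ (R : Type) [CommRing R] (u : Rˣ)
        (χ : Finset {x // 0 < mulG m e a x} → R),
        dlZ u (nuG k T) (mulG m e a) χ ∈ ratU u (𝒮 : Set (ℤ × ℤ))) ∧
      ∀ q ∈ 𝒮, q.1 < 0 ∧ 0 < q.2 ∧ ∀ b : Polynomial ℂ,
        (IsBFunction (powProd a fun t => mixFam g (e t)) b ∨
          IsLocalBFunction (powProd a fun t => mixFam g (e t)) b) →
        b.eval ((q.1 : ℂ) / q.2) = 0 := by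
  refine ⟨pairs (nuG k T) (mulG m e a), fun R _ u χ => dlZ_mem u _ _ χ, fun q hq => ?_⟩
  have h2 := pairs_sign _ _ (nuG_pos k) q hq
  refine ⟨h2.1, h2.2, fun b hb => ?_⟩
  exact pairs_roots _ _ (nuG_pos k) b
    (fun x l hl => gen_roots g hg k m e a hE b hb x l hl) q hq

/-- the motivic zeta functions and the root pairs -/
theorem gen_mot (g : (s : S) → κ s → MvPolynomial σ ℂ) (hg : ∀ s, ∃ j, g s j ≠ 0) (k : I → ℕ)
    (m : I → S → ℕ) (e : T → S → ℕ) (a : T → ℕ)
    (hE : ∀ i, 0 < mulG m e a (Sum.inl i) → HasChart g (k i) (m i) (Occ e a))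
    (R : Type) [CommRing R] (u : Rˣ) (χ : Finset {x // 0 < mulG m e a x} → R)
    (b : Polynomial ℂ) (hb : IsBFunction (powProd a fun t => mixFam g (e t)) b ∨
      IsLocalBFunction (powProd a fun t => mixFam g (e t)) b) :
    dlZ u (nuG k T) (mulG m e a) χ ∈ ratU u (RootPairs b) := by
  refine ratU_mono u (fun q hq => ?_) (dlZ_mem u _ _ χ)
  have h2 := pairs_sign _ _ (nuG_pos k) q hq
  exact ⟨h2.1, h2.2, pairs_roots _ _ (nuG_pos k) b
    (fun x l hl => gen_roots g hg k m e a hE b hb x l hl) q hq⟩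

/-- the vectors of multiplicities of the tuple of the forms -/
def vecG (m : I → S → ℕ) (e : T → S → ℕ) : I ⊕ T → T → ℕ :=
  mulT fun (i : I) t => ∑ s, e t s * m i s

theorem mulG_vec (m : I → S → ℕ) (e : T → S → ℕ) (n : T → ℕ) (x : I ⊕ T) :
    mulG m e n x = ∑ t, n t * vecG m e x t := by
  rcases x with i | t
  · rfl
  · change n t = ∑ t', n t' * (Pi.single t 1 : T → ℕ) t'
    rw [Finset.sum_eq_single t]
    · rw [Pi.single_eq_same, mul_one]
    · intro t' _ ht'
      rw [Pi.single_eq_of_ne ht', mul_zero]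
    · intro h; exact absurd (Finset.mem_univ _) h

theorem gen_tuple (g : (s : S) → κ s → MvPolynomial σ ℂ) (hg : ∀ s, ∃ j, g s j ≠ 0) (k : I → ℕ)
    (m : I → S → ℕ) (e : T → S → ℕ)
    (hE : ∀ i, (∃ t s, e t s * m i s ≠ 0) → HasChart g (k i) (m i) (fun s => ∃ t, e t s ≠ 0))
    (χ : Finset (I ⊕ T) → ℤ) (z : T → ℂ)
    (hz : z ∈ PolarLocus (topM (nuG k T) (vecG m e) χ)) :
    ∃ x, ∑ t, (vecG m e x t : ℂ) * z t + (nuG k T x : ℂ) = 0 ∧
      ∀ n : T → ℕ, (∀ t, 0 < n t) → 0 < ∑ t, n t * vecG m e x t ∧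
        ∀ b : Polynomial ℂ, IsBFunction (powProd n fun t => mixFam g (e t)) b →
          ∀ l : ℕ, l < ∑ t, n t * vecG m e x t →
            b.eval (-((nuG k T x : ℂ) + l) / (∑ t, n t * vecG m e x t : ℕ)) = 0 := by
  obtain ⟨x, hx⟩ := polar_topM _ (nuG_pos k) _ χ z hz
  refine ⟨x, hx, fun n hn => ⟨?_, fun b hb l hl => ?_⟩⟩
  · rcases Nat.eq_zero_or_pos (∑ t, n t * vecG m e x t) with h0 | h0
    · exfalso
      have h1 : ∀ t, vecG m e x t = 0 := fun t =>
        (Nat.mul_eq_zero.1 ((Finset.sum_eq_zero_iff.1 h0) t (Finset.mem_univ t))).resolve_left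
          (hn t).ne'
      have h2 : ∑ t, (vecG m e x t : ℂ) * z t = 0 :=
        Finset.sum_eq_zero fun t _ => by rw [h1 t, Nat.cast_zero, zero_mul]
      rw [h2, zero_add] at hx
      exact (nuG_pos k x).ne' (Nat.cast_eq_zero.1 hx)
    · exact h0
  · rw [← mulG_vec] at hl ⊢
    refine gen_roots g hg k m e n (fun i hi => ?_) b (Or.inl hb) x l hl
    obtain ⟨t, -, ht⟩ := Finset.exists_ne_zero_of_sum_ne_zero
      (show (∑ t, n t * ∑ s, e t s * m i s) ≠ 0 from hi.ne')
    obtain ⟨s, -, hs⟩ := Finset.exists_ne_zero_of_sum_ne_zero (right_ne_zero_of_mul ht)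
    refine hasChart_mono ?_ (hE i ⟨t, s, hs⟩)
    rintro s' ⟨t', ht'⟩
    exact ⟨t', (hn t').ne', ht'⟩

end Gen

/-- general base points: a polynomial with nonzero constant term does not vanish at some nonzero
multiple of a given point -/
theorem exists_mul {σ : Type} (x : σ → ℂ) (H : MvPolynomial σ ℂ)
    (hH : MvPolynomial.constantCoeff H ≠ 0) :
    ∃ lam : ℂ, lam ≠ 0 ∧ MvPolynomial.eval (fun k => lam * x k) H ≠ 0 := by
  set P : Polynomial ℂ := MvPolynomial.aeval
    (fun k : σ => (Polynomial.X : Polynomial ℂ) * Polynomial.C (x k)) H with hP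
  have hev : ∀ y : ℂ, P.eval y = MvPolynomial.eval (fun k => y * x k) H := by
    intro y
    rw [hP]
    have h1 : (Polynomial.evalRingHom y).comp (MvPolynomial.aeval
        (fun k : σ => (Polynomial.X : Polynomial ℂ) * Polynomial.C (x k)) :
          MvPolynomial σ ℂ →ₐ[ℂ] Polynomial ℂ).toRingHom
        = MvPolynomial.eval (fun k => y * x k) := by
      ext k
      · simp
      · simp only [AlgHom.toRingHom_eq_coe, RingHom.coe_comp, RingHom.coe_coe, Function.comp_apply,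
          MvPolynomial.aeval_X, MvPolynomial.eval_X, Polynomial.coe_evalRingHom,
          Polynomial.eval_mul, Polynomial.eval_X, Polynomial.eval_C]
    exact RingHom.congr_fun h1 H
  have hne : P * Polynomial.X ≠ 0 := by
    refine mul_ne_zero ?_ Polynomial.X_ne_zero
    intro h0
    have h1 := hev 0
    rw [h0, Polynomial.eval_zero] at h1
    apply hH
    rw [h1]
    simp only [zero_mul]
    exact (MvPolynomial.eval_zero' (σ := σ) (R := ℂ) ▸ rfl :
      MvPolynomial.constantCoeff H = MvPolynomial.eval (fun _ => 0) H)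
  by_contra hcon
  push Not at hcon
  apply hne
  refine Polynomial.funext fun y => ?_
  rw [Polynomial.eval_mul, Polynomial.eval_X, Polynomial.eval_zero]
  by_cases hy : y = 0
  · rw [hy, mul_zero]
  · rw [hev, hcon y hy, zero_mul]

end Pool.Agent.Run7.h827.HM
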