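import Pool.Agent.Run7.h827.HM.Mixed
import Pool.Agent.R852.BM.Ports
import Pool.Agent.R852.BM.Defs

set_option autoImplicit false
set_option linter.unusedSectionVars false
set_option linter.unusedVariables false

/-! # Products of Hankel determinantal ideals: motivic zeta functions -/

namespace Pool.Agent.Run7.h827.HM

open Pool.Agent.W574.SM Pool.Agent.W574.LM Pool.Agent.TH192.DT Pool.Agent.H628R4.TP
  Pool.Agent.Y231.RF Pool.Agent.Y228.RR Pool.Agent.R852.BM Pool.Agent.R779.HK

variable {S T : Type} [Fintype S] [DecidableEq S] [Fintype T] [DecidableEq T]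

theorem mix_data (N : ℕ) (p : S → ℕ) (e : T → S → ℕ) (a : T → ℕ) (hp : ∀ s, 2 * p s < N)
    (b : Polynomial ℂ) (hb : IsBFunction (powProd a fun t => hankelProd N p (e t)) b ∨
      IsLocalBFunction (powProd a fun t => hankelProd N p (e t)) b) :
    PowData a (fun t => hankelProd N p (e t)) b := by
  rcases hb with hb | hb
  · exact powData_global a _ (fun t => hankelProd_ne N p (e t) hp) b hb
  · exact powData_local a _ (fun t => hankelProd_ne N p (e t) hp) b hb

/-- the set of the pairs for the forms over products of Hankel determinantal ideals -/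
theorem mix_set (N : ℕ) (p : S → ℕ) (e : T → S → ℕ) (a : T → ℕ) (hp : ∀ s, 2 * p s < N) :
    ∃ 𝒮 : Finset (ℤ × ℤ), (∀ (R : Type) [CommRing R] (u : Rˣ)
        (χ : Finset {x // 0 < mulM N p e a x} → R),
        dlZ u (nuH N T) (mulM N p e a) χ ∈ ratU u (𝒮 : Set (ℤ × ℤ))) ∧
      ∀ q ∈ 𝒮, q.1 < 0 ∧ 0 < q.2 ∧ ∀ b : Polynomial ℂ,
        (IsBFunction (powProd a fun t => hankelProd N p (e t)) b ∨
          IsLocalBFunction (powProd a fun t => hankelProd N p (e t)) b) →
        b.eval ((q.1 : ℂ) / q.2) = 0 := by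
  refine ⟨pairs (nuH N T) (mulM N p e a), fun R _ u χ => dlZ_mem u _ _ χ, fun q hq => ?_⟩
  have h2 := pairs_sign _ _ (nuH_pos N T) q hq
  refine ⟨h2.1, h2.2, fun b hb => ?_⟩
  exact pairs_roots _ _ (nuH_pos N T) b
    (fun x l hl => mix_pow_roots N p e a hp b (mix_data N p e a hp b hb) x l hl) q hq

/-- the motivic zeta functions and the root pairs -/
theorem mix_mot (N : ℕ) (p : S → ℕ) (e : T → S → ℕ) (a : T → ℕ) (hp : ∀ s, 2 * p s < N)
    (R : Type) [CommRing R] (u : Rˣ) (χ : Finset {x // 0 < mulM N p e a x} → R)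
    (b : Polynomial ℂ) (hb : IsBFunction (powProd a fun t => hankelProd N p (e t)) b ∨
      IsLocalBFunction (powProd a fun t => hankelProd N p (e t)) b) :
    dlZ u (nuH N T) (mulM N p e a) χ ∈ ratU u (RootPairs b) := by
  refine ratU_mono u (fun q hq => ?_) (dlZ_mem u _ _ χ)
  have h2 := pairs_sign _ _ (nuH_pos N T) q hq
  exact ⟨h2.1, h2.2, pairs_roots _ _ (nuH_pos N T) b
    (fun x l hl => mix_pow_roots N p e a hp b (mix_data N p e a hp b hb) x l hl) q hq⟩

/-- the numbers of the components of the principalization of `∏ s, I_{p s} ^ e s` -/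
def nuI (N : ℕ) (d : Fin ((N + 1) / 2)) : ℕ := N - 2 * d

/-- the multiplicities of `∏ s, I_{p s} ^ e s` -/
def mulI (N : ℕ) (p e : S → ℕ) (d : Fin ((N + 1) / 2)) : ℕ := ∑ s, e s * (p s - d)

theorem nuI_pos (N : ℕ) (d : Fin ((N + 1) / 2)) : 0 < nuI N d := by
  have h := d.isLt
  rw [nuI]
  omega

/-- one ideal -/
theorem one_ideal_roots (N : ℕ) (p e : S → ℕ) (hp : ∀ s, 2 * p s < N) (b : Polynomial ℂ)
    (H : MvPolynomial (Fin N) ℂ) (hH : MvPolynomial.constantCoeff H ≠ 0)
    (hb : Pool.Agent.W574.LM.IsLocEq H (hankelProd N p e) b)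
    (d : Fin ((N + 1) / 2)) (l : ℕ) (hl : l < mulI N p e d) :
    b.eval (-((nuI N d : ℂ) + l) / mulI N p e d) = 0 := by
  have h := ideal_roots N d p e hp b H hH hb l hl
  exact h

end Pool.Agent.Run7.h827.HM
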